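import Pool.Agent.W4.QD.Stms

/-!
# QD-RANK: at most `k` pairwise non-proportional points of the curve in a plane
-/

set_option autoImplicit false

namespace Pool.Agent.W999.QD

open NumberField Finset Polynomial Pool.Agent.W4.QD

theorem sep {K : Type} [Field K] [NumberField K] {x : 𝓞 K} (h : ∀ ℓ : 𝓞 K →+ ℤ, ℓ x = 0) :
    x = 0 := by
  apply (RingOfIntegers.basis K).ext_elem
  intro i
  have := h (((RingOfIntegers.basis K).coord i).toAddMonoidHom)
  simpa using this

/-- the quadratic field -/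
theorem quad {K : Type} [Field K] [NumberField K] {θ r μ : K} (hgen : Algebra.adjoin ℚ {θ} = ⊤)
    (hμ : μ ≠ 0) (hr : ∀ q : ℚ, r ≠ (q : K)) {a0 b0 a1 b1 a2 b2 : ℚ}
    (h0 : μ = a0 + b0 * θ) (h1 : μ * r = a1 + b1 * θ) (h2 : μ * r ^ 2 = a2 + b2 * θ) :
    Module.finrank ℚ K ≤ 2 := by
  have hΔ : a0 * b1 - a1 * b0 ≠ 0 := by
    intro hz
    have hz' : (a0 : K) * b1 - a1 * b0 = 0 := by exact_mod_cast hz
    have e1 : μ * (b1 - b0 * r) = 0 := by
      have : μ * (b1 - b0 * r) = (a0 : K) * b1 - a1 * b0 := by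
        calc μ * (b1 - b0 * r) = μ * b1 - b0 * (μ * r) := by ring
          _ = (a0 + b0 * θ) * b1 - b0 * (a1 + b1 * θ) := by rw [h1, ← h0]
          _ = (a0 : K) * b1 - a1 * b0 := by ring
      rw [this, hz']
    have e2 : (b1 : K) - b0 * r = 0 := (mul_eq_zero.1 e1).resolve_left hμ
    by_cases hb : b0 = 0
    · have hb1 : b1 = 0 := by
        rw [hb] at e2
        simpa using e2
      rw [hb] at h0
      rw [hb1] at h1
      have ha0 : (a0 : K) ≠ 0 := by
        intro ha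
        apply hμ
        rw [h0, ha]
        simp
      apply hr (a1 / a0)
      have : (a0 : K) * r = a1 := by
        have h3 : μ = a0 := by rw [h0]; simp
        rw [← h3, h1]; simp
      push_cast
      rw [eq_div_iff ha0, mul_comm]
      exact this
    · have hb' : (b0 : K) ≠ 0 := by exact_mod_cast hb
      apply hr (b1 / b0)
      push_cast
      rw [eq_div_iff hb', mul_comm]
      exact (sub_eq_zero.1 e2).symm
  have hΔ' : (a0 : K) * b1 - a1 * b0 ≠ 0 := by exact_mod_cast hΔ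
  have e1 : μ * (b1 - b0 * r) = (a0 : K) * b1 - a1 * b0 := by
    calc μ * (b1 - b0 * r) = μ * b1 - b0 * (μ * r) := by ring
      _ = (a0 + b0 * θ) * b1 - b0 * (a1 + b1 * θ) := by rw [h1, ← h0]
      _ = (a0 : K) * b1 - a1 * b0 := by ring
  have e2 : μ * (a0 * r - a1) = ((a0 : K) * b1 - a1 * b0) * θ := by
    calc μ * (a0 * r - a1) = a0 * (μ * r) - a1 * μ := by ring
      _ = a0 * (a1 + b1 * θ) - a1 * (a0 + b0 * θ) := by rw [h1, ← h0]
      _ = ((a0 : K) * b1 - a1 * b0) * θ := by ring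
  have e3 : (b1 : K) - b0 * r ≠ 0 := by
    intro h3
    rw [h3, mul_zero] at e1
    exact hΔ' e1.symm
  -- the quadratic equation of `r`
  have e4 : r ^ 2 * ((a0 : K) * b1 - a1 * b0) = a2 * (b1 - b0 * r) + b2 * (a0 * r - a1) := by
    apply mul_left_cancel₀ hμ
    calc μ * (r ^ 2 * ((a0 : K) * b1 - a1 * b0))
        = (μ * r ^ 2) * ((a0 : K) * b1 - a1 * b0) := by ring
      _ = a2 * ((a0 : K) * b1 - a1 * b0) + b2 * (((a0 : K) * b1 - a1 * b0) * θ) := by
          rw [h2]; ring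
      _ = a2 * (μ * (b1 - b0 * r)) + b2 * (μ * (a0 * r - a1)) := by rw [e1, e2]
      _ = μ * (a2 * (b1 - b0 * r) + b2 * (a0 * r - a1)) := by ring
  set F := IntermediateField.adjoin ℚ {r} with hF
  have hrF : r ∈ F := IntermediateField.mem_adjoin_simple_self ℚ r
  have hq : ∀ q : ℚ, (q : K) ∈ F := fun q => by
    have := F.algebraMap_mem q
    rwa [eq_ratCast] at this
  have hμF : μ ∈ F := by
    have h3 : μ = ((a0 : K) * b1 - a1 * b0) / (b1 - b0 * r) := by
      rw [eq_div_iff e3]; exact e1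
    rw [h3]
    exact F.div_mem (F.sub_mem (F.mul_mem (hq _) (hq _)) (F.mul_mem (hq _) (hq _)))
      (F.sub_mem (hq _) (F.mul_mem (hq _) hrF))
  have hθF : θ ∈ F := by
    have h3 : θ = μ * (a0 * r - a1) / ((a0 : K) * b1 - a1 * b0) := by
      rw [eq_div_iff hΔ', mul_comm]; exact e2.symm
    rw [h3]
    exact F.div_mem (F.mul_mem hμF (F.sub_mem (F.mul_mem (hq _) hrF) (hq _)))
      (F.sub_mem (F.mul_mem (hq _) (hq _)) (F.mul_mem (hq _) (hq _)))
  have htop : (⊤ : Subalgebra ℚ K) ≤ F.toSubalgebra := by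
    rw [← hgen]
    refine Algebra.adjoin_le ?_
    intro x hx
    rw [Set.mem_singleton_iff] at hx
    rw [hx]
    exact hθF
  have htop' : F = ⊤ := by
    rw [eq_top_iff]
    intro x _
    exact htop (Algebra.mem_top)
  -- the degree
  set P : ℚ[X] := C (a0 * b1 - a1 * b0) * X ^ 2 + C (a2 * b0 - b2 * a0) * X +
    C (b2 * a1 - a2 * b1) with hP
  have hPdeg : P.natDegree = 2 := Polynomial.natDegree_quadratic hΔ
  have hP0 : P ≠ 0 := by
    intro h3
    rw [h3] at hPdeg
    simp at hPdeg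
  have hPr : aeval r P = 0 := by
    rw [hP]
    simp only [map_add, map_mul, map_pow, aeval_X, aeval_C, map_sub, eq_ratCast]
    linear_combination e4
  have hint : IsIntegral ℚ r := Algebra.IsIntegral.isIntegral r
  have h5 : Module.finrank ℚ F = (minpoly ℚ r).natDegree :=
    IntermediateField.adjoin.finrank hint
  have h6 : (minpoly ℚ r).natDegree ≤ 2 := by
    rw [← hPdeg]
    exact Polynomial.natDegree_le_of_dvd (minpoly.dvd ℚ r hPr) hP0
  have h7 : Module.finrank ℚ F = Module.finrank ℚ K := by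
    rw [htop']
    exact IntermediateField.finrank_top'
  omega

theorem t_RANK : S_RANK := by
  classical
  intro K _ _ θ hgen hdim τ k hk hτ s hs hprop hdet
  by_contra hcard
  rw [not_le] at hcard
  obtain ⟨δ1, h1s, δ2, h2s, h12⟩ := Finset.one_lt_card.1 (by omega : 1 < s.card)
  have h10 := (hs δ1 h1s).1
  have hzm : ∀ (ℓ : 𝓞 K →+ ℤ) (n : ℤ) (x : 𝓞 K), ℓ ((n : 𝓞 K) * x) = n * ℓ x := by
    intro ℓ n x
    rw [← zsmul_eq_mul, map_zsmul, smul_eq_mul]
  obtain ⟨f1, hf1⟩ : ∃ f1 : 𝓞 K →+ ℤ, f1 δ1 ≠ 0 := by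
    by_contra h
    push Not at h
    exact h10 (sep h)
  obtain ⟨f2, hf2⟩ : ∃ f2 : 𝓞 K →+ ℤ, f1 δ1 * f2 δ2 - f1 δ2 * f2 δ1 ≠ 0 := by
    by_contra h
    push Not at h
    have h3 : ((f1 δ1 : ℤ) : 𝓞 K) * δ2 - ((f1 δ2 : ℤ) : 𝓞 K) * δ1 = 0 := by
      apply sep
      intro ℓ
      rw [map_sub, hzm, hzm]
      exact h ℓ
    exact h12 ((hprop δ2 h2s δ1 h1s _ _ hf1 (sub_eq_zero.1 h3)).symm)
  set D : ℤ := f1 δ1 * f2 δ2 - f1 δ2 * f2 δ1 with hD
  obtain ⟨A, hA⟩ : ∃ A : 𝓞 K → ℤ, ∀ δ, A δ = f1 δ * f2 δ2 - f1 δ2 * f2 δ := ⟨_, fun _ => rfl⟩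
  obtain ⟨B, hB⟩ : ∃ B : 𝓞 K → ℤ, ∀ δ, B δ = f1 δ1 * f2 δ - f1 δ * f2 δ1 := ⟨_, fun _ => rfl⟩
  have comb : ∀ δ ∈ s, (D : 𝓞 K) * δ = (A δ : 𝓞 K) * δ1 + (B δ : 𝓞 K) * δ2 := by
    intro δ hδ
    rw [← sub_eq_zero]
    apply sep
    intro ℓ
    have h3 := hdet ![δ1, δ2, δ] (by
      intro a
      fin_cases a
      · exact h1s
      · exact h2s
      · exact hδ) ![f1, f2, ℓ]
    rw [Matrix.det_fin_three] at h3
    simp only [Matrix.of_apply, Matrix.cons_val_zero, Matrix.cons_val_one, Matrix.cons_val] at h3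
    rw [map_sub, map_add, hzm, hzm, hzm, hA, hB, hD]
    linear_combination h3
  have hA0 : ∀ δ ∈ s, δ ≠ δ2 → A δ ≠ 0 := by
    intro δ hδ hne h3
    have h4 := comb δ hδ
    rw [h3, Int.cast_zero, zero_mul, zero_add] at h4
    exact hne (hprop δ hδ δ2 h2s _ _ hf2 h4)
  -- points of the curve
  have hcur : ∀ (L : K →ₗ[ℚ] ℚ), L 1 = 0 → L (θ : K) = 0 → ∀ δ ∈ s,
      L ((τ : K) * (δ : K) ^ k) = 0 := by
    intro L hL1 hLθ δ hδ
    obtain ⟨n, a, b, hn, h3⟩ := (hs δ hδ).2
    have h4 : (n : K) * ((τ : K) * (δ : K) ^ k) = a + b * (θ : K) := by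
      have := congrArg (algebraMap (𝓞 K) K) h3
      simpa using this
    have h5 : (n : ℚ) • ((τ : K) * (δ : K) ^ k) = (a : ℚ) • (1 : K) + (b : ℚ) • (θ : K) := by
      simp only [Algebra.smul_def, eq_ratCast, Rat.cast_intCast, mul_one]
      exact h4
    have h6 := congrArg L h5
    rw [map_smul, map_add, map_smul, map_smul, hL1, hLθ, smul_zero, smul_zero, add_zero,
      smul_eq_mul] at h6
    exact (mul_eq_zero.1 h6).resolve_left (by exact_mod_cast hn)
  -- the coefficients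
  have hcoef : ∀ (L : K →ₗ[ℚ] ℚ), L 1 = 0 → L (θ : K) = 0 → ∀ j, j ≤ k →
      L ((τ : K) * ((δ1 : K) ^ (k - j) * (δ2 : K) ^ j)) = 0 := by
    intro L hL1 hLθ
    have hkk : L ((τ : K) * ((δ1 : K) ^ (k - k) * (δ2 : K) ^ k)) = 0 := by
      rw [Nat.sub_self, pow_zero, one_mul]
      exact hcur L hL1 hLθ δ2 h2s
    set c : ℕ → ℚ := fun j => (k.choose j : ℚ) * L ((τ : K) * ((δ1 : K) ^ (k - j) * (δ2 : K) ^ j))
      with hc
    set q : ℚ[X] := ∑ j ∈ range k, C (c j) * X ^ j with hq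
    have hqdeg : q.degree < k := by
      rw [hq, Polynomial.degree_lt_iff_coeff_zero]
      intro m hm
      rw [Polynomial.finsetSum_coeff]
      apply Finset.sum_eq_zero
      intro j hj
      rw [Polynomial.coeff_C_mul_X_pow, if_neg]
      rw [mem_range] at hj
      omega
    have hroot : ∀ δ ∈ s.erase δ2, q.eval ((B δ : ℚ) / A δ) = 0 := by
      intro δ hδ
      rw [mem_erase] at hδ
      have hAq : (A δ : ℚ) ≠ 0 := by exact_mod_cast hA0 δ hδ.2 hδ.1
      have h3 : (D : K) * (δ : K) = (A δ : K) * (δ1 : K) + (B δ : K) * (δ2 : K) := by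
        have := congrArg (algebraMap (𝓞 K) K) (comb δ hδ.2)
        simpa using this
      have h4 : (D : K) ^ k * ((τ : K) * (δ : K) ^ k) =
          ∑ j ∈ range (k + 1), (((A δ : ℚ) ^ (k - j) * (B δ : ℚ) ^ j * (k.choose j : ℚ) : ℚ)) •
            ((τ : K) * ((δ1 : K) ^ (k - j) * (δ2 : K) ^ j)) := by
        calc (D : K) ^ k * ((τ : K) * (δ : K) ^ k) = (τ : K) * ((D : K) * (δ : K)) ^ k := by
              rw [mul_pow]; ring
          _ = (τ : K) * ((B δ : K) * (δ2 : K) + (A δ : K) * (δ1 : K)) ^ k := by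
              rw [h3, add_comm]
          _ = _ := by
              rw [add_pow, Finset.mul_sum]
              refine Finset.sum_congr rfl (fun j _ => ?_)
              rw [Algebra.smul_def, mul_pow, mul_pow]
              simp only [eq_ratCast]
              push_cast
              ring
      have h5 : (D : ℚ) ^ k • ((τ : K) * (δ : K) ^ k) = (D : K) ^ k * ((τ : K) * (δ : K) ^ k) := by
        rw [Algebra.smul_def]
        simp
      rw [← h5] at h4
      have h6 := congrArg L h4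
      rw [map_smul, hcur L hL1 hLθ δ hδ.2, smul_zero, map_sum, Finset.sum_range_succ] at h6
      simp only [map_smul, smul_eq_mul] at h6
      rw [hkk, mul_zero, add_zero] at h6
      have h7 : (A δ : ℚ) ^ k * q.eval ((B δ : ℚ) / A δ) = 0 := by
        rw [hq, Polynomial.eval_finsetSum, Finset.mul_sum, h6]
        refine Finset.sum_congr rfl (fun j hj => ?_)
        rw [mem_range] at hj
        simp only [eval_mul, eval_C, eval_pow, eval_X, hc]
        have e1 : (A δ : ℚ) ^ k = (A δ : ℚ) ^ (k - j) * (A δ : ℚ) ^ j := by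
          rw [← pow_add]; congr 1; omega
        rw [e1, div_pow]
        field_simp
      exact (mul_eq_zero.1 h7).resolve_left (pow_ne_zero _ hAq)
    have hinj : Set.InjOn (fun δ => (B δ : ℚ) / A δ) (s.erase δ2 : Finset (𝓞 K)) := by
      intro δ hδ δ' hδ' heq
      rw [Finset.mem_coe, mem_erase] at hδ hδ'
      have hAδ := hA0 δ hδ.2 hδ.1
      have hAδ' := hA0 δ' hδ'.2 hδ'.1
      have hAq : (A δ : ℚ) ≠ 0 := by exact_mod_cast hAδ
      have hAq' : (A δ' : ℚ) ≠ 0 := by exact_mod_cast hAδ'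
      simp only at heq
      rw [div_eq_div_iff hAq hAq'] at heq
      have heq' : B δ * A δ' = B δ' * A δ := by exact_mod_cast heq
      have heq2 : (B δ : 𝓞 K) * (A δ' : 𝓞 K) = (B δ' : 𝓞 K) * (A δ : 𝓞 K) := by exact_mod_cast heq'
      refine hprop δ hδ.2 δ' hδ'.2 (A δ' * D) (A δ * D) (mul_ne_zero hAδ' hf2) ?_
      push_cast
      linear_combination (A δ' : 𝓞 K) * comb δ hδ.2 - (A δ : 𝓞 K) * comb δ' hδ'.2 + δ2 * heq2
    have hq0 : q = 0 := by
      refine Polynomial.eq_zero_of_degree_lt_of_eval_finset_eq_zero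
        ((s.erase δ2).image (fun δ => (B δ : ℚ) / A δ)) ?_ ?_
      · rw [Finset.card_image_of_injOn hinj, Finset.card_erase_of_mem h2s]
        refine lt_of_lt_of_le hqdeg ?_
        exact_mod_cast (by omega : k ≤ s.card - 1)
      · intro x hx
        rw [Finset.mem_image] at hx
        obtain ⟨δ, hδ, rfl⟩ := hx
        exact hroot δ hδ
    intro j hj
    rcases Nat.lt_or_ge j k with hjk | hjk
    · have h3 : q.coeff j = c j := by
        rw [hq, Polynomial.finsetSum_coeff]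
        rw [Finset.sum_eq_single j]
        · rw [Polynomial.coeff_C_mul_X_pow, if_pos rfl]
        · intro i _ hij
          rw [Polynomial.coeff_C_mul_X_pow, if_neg (Ne.symm hij)]
        · intro h4
          exact absurd (mem_range.2 hjk) h4
      rw [hq0, Polynomial.coeff_zero, hc] at h3
      refine (mul_eq_zero.1 h3.symm).resolve_left ?_
      have := Nat.choose_pos hj
      positivity
    · have : j = k := le_antisymm hj hjk
      rw [this]
      exact hkk
  -- membership in the plane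
  have hmem : ∀ j, j ≤ k → ∃ a b : ℚ,
      (τ : K) * ((δ1 : K) ^ (k - j) * (δ2 : K) ^ j) = a + b * (θ : K) := by
    intro j hj
    have h3 : (τ : K) * ((δ1 : K) ^ (k - j) * (δ2 : K) ^ j) ∈
        Submodule.span ℚ {(1 : K), (θ : K)} := by
      by_contra h3
      obtain ⟨L, hL, hker⟩ := Submodule.exists_le_ker_of_notMem h3
      apply hL
      refine hcoef L ?_ ?_ j hj
      · exact hker (Submodule.subset_span (by simp))
      · exact hker (Submodule.subset_span (by simp))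
    obtain ⟨a, b, h4⟩ := Submodule.mem_span_pair.1 h3
    refine ⟨a, b, ?_⟩
    rw [← h4]
    simp [Algebra.smul_def]
  have hd1 : (δ1 : K) ≠ 0 := by
    intro h3
    exact h10 (by exact_mod_cast h3)
  have hτ' : (τ : K) ≠ 0 := by
    intro h3
    exact hτ (by exact_mod_cast h3)
  obtain ⟨a0, b0, e0⟩ := hmem 0 (Nat.zero_le _)
  obtain ⟨a1, b1, e1⟩ := hmem 1 (by omega)
  obtain ⟨a2, b2, e2⟩ := hmem 2 hk
  have hr : ∀ q : ℚ, (δ2 : K) / (δ1 : K) ≠ (q : K) := by
    intro q h3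
    rw [div_eq_iff hd1] at h3
    have hden : (q.den : K) ≠ 0 := by exact_mod_cast q.den_ne_zero
    have h4 : (q.den : K) * (δ2 : K) = (q.num : K) * (δ1 : K) := by
      rw [h3]
      have h5 : (q : K) = (q.num : K) / (q.den : K) := Rat.cast_def q
      rw [h5]
      field_simp
    have h6 : ((q.den : ℤ) : 𝓞 K) * δ2 = (q.num : 𝓞 K) * δ1 := by
      apply RingOfIntegers.ext
      simpa using h4
    exact h12 (hprop δ2 h2s δ1 h1s _ _ (by exact_mod_cast q.den_ne_zero) h6).symm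
  have hfin := quad (θ := (θ : K)) (r := (δ2 : K) / (δ1 : K)) (μ := (τ : K) * (δ1 : K) ^ k) hgen
    (mul_ne_zero hτ' (pow_ne_zero _ hd1)) hr (a0 := a0) (b0 := b0) (a1 := a1) (b1 := b1)
    (a2 := a2) (b2 := b2)
    (by rw [← e0]; simp)
    (by
      rw [← e1]
      have : (δ1 : K) ^ k = (δ1 : K) ^ (k - 1) * (δ1 : K) := by
        rw [← pow_succ]; congr 1; omega
      rw [this]
      field_simp)
    (by
      rw [← e2]
      have : (δ1 : K) ^ k = (δ1 : K) ^ (k - 2) * (δ1 : K) ^ 2 := by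
        rw [← pow_add]; congr 1; omega
      rw [this]
      field_simp)
  omega

end Pool.Agent.W999.QD
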